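import Mathlib

set_option autoImplicit false

namespace Pool.Agent.Results.MP_36a07b_nt.DoublingBoth

/-- the Prouhet-Thue-Morse sequence in `±1` form: `t n = (-1)^{s_2(n)}`, where `s_2(n)` is the sum
of the binary digits of `n`. -/
def t (n : ℕ) : ℤ := (-1) ^ (Nat.digits 2 n).sum

/-- `h_0 = 0`, `h_1 = 1`, `h_n = t_n h_{n-1} + h_{n-2}`. -/
def h : ℕ → ℤ
  | 0 => 0
  | 1 => 1
  | n + 2 => t (n + 2) * h (n + 1) + h n

theorem t_zero : t 0 = 1 := by simp [t]

theorem t_even (n : ℕ) : t (2 * n) = t n := by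
  rcases Nat.eq_zero_or_pos n with rfl | hn
  · simp
  · unfold t
    rw [Nat.digits_def' (by norm_num) (by omega)]
    simp

theorem t_odd (n : ℕ) : t (2 * n + 1) = - t n := by
  unfold t
  rw [Nat.digits_def' (by norm_num) (by omega)]
  have h1 : (2 * n + 1) % 2 = 1 := by omega
  have h2 : (2 * n + 1) / 2 = n := by omega
  rw [h1, h2, List.sum_cons, pow_add]
  ring

theorem t_sq (n : ℕ) : t n * t n = 1 := by
  unfold t
  rw [← mul_pow]
  norm_num

/-- the shifted sequence `g_n = h_{n-2}` -/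
def g : ℕ → ℤ
  | 0 => -1
  | 1 => 1
  | n + 2 => t n * g (n + 1) + g n

theorem g_rec (n : ℕ) : g (n + 2) = t n * g (n + 1) + g n := by
  conv_lhs => unfold g

theorem h_rec (n : ℕ) : h (n + 2) = t (n + 2) * h (n + 1) + h n := by
  conv_lhs => unfold h

theorem h_eq_g (n : ℕ) : h n = g (n + 2) ∧ h (n + 1) = g (n + 3) := by
  induction n with
  | zero =>
    have e1 : t 1 = -1 := by have := t_odd 0; simpa [t_zero] using this
    refine ⟨?_, ?_⟩
    · rw [g_rec, t_zero]; simp [h, g]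
    · rw [show (0 + 3) = 1 + 2 by norm_num, g_rec, e1, g_rec, t_zero]; simp [h, g]
  | succ n ih =>
    refine ⟨ih.2, ?_⟩
    have e : g (n + 1 + 3) = t (n + 2) * g (n + 3) + g (n + 2) := g_rec (n + 2)
    rw [e, ← ih.1, ← ih.2]
    exact h_rec n

/-- the entries of the block matrices -/
def M : ℕ → ℤ × ℤ × ℤ × ℤ
  | 0 => (0, -1, 1, 1)
  | k + 1 =>
    let a := (M k).1
    let b := (M k).2.1
    let c := (M k).2.2.1
    let d := (M k).2.2.2
    (a * a - b * c, b * (a - d), - c * (a - d), d * d - b * c)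

def a (k : ℕ) : ℤ := (M k).1
def b (k : ℕ) : ℤ := (M k).2.1
def c (k : ℕ) : ℤ := (M k).2.2.1
def d (k : ℕ) : ℤ := (M k).2.2.2

theorem a_succ (k : ℕ) : a (k + 1) = a k * a k - b k * c k := rfl
theorem b_succ (k : ℕ) : b (k + 1) = b k * (a k - d k) := rfl
theorem c_succ (k : ℕ) : c (k + 1) = - c k * (a k - d k) := rfl
theorem d_succ (k : ℕ) : d (k + 1) = d k * d k - b k * c k := rfl

theorem det (k : ℕ) : a k * d k - b k * c k = 1 := by
  induction k with
  | zero => simp [a, b, c, d, M]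
  | succ k ih =>
    rw [a_succ, b_succ, c_succ, d_succ]
    have : (a k * a k - b k * c k) * (d k * d k - b k * c k) -
        b k * (a k - d k) * (-c k * (a k - d k)) = (a k * d k - b k * c k) ^ 2 := by ring
    rw [this, ih]; norm_num

theorem block (k : ℕ) : ∀ j : ℕ,
    g (2 ^ (k + 1) * j + 2 ^ (k + 1) + 1) =
      a k * g (2 ^ (k + 1) * j + 1) + t j * b k * g (2 ^ (k + 1) * j) ∧
    g (2 ^ (k + 1) * j + 2 ^ (k + 1)) =
      t j * c k * g (2 ^ (k + 1) * j + 1) + d k * g (2 ^ (k + 1) * j) := by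
  induction k with
  | zero =>
    intro j
    have e1 : g (2 * j + 2) = t j * g (2 * j + 1) + g (2 * j) := by rw [g_rec, t_even]
    have e2 : g (2 * j + 3) = - t j * g (2 * j + 2) + g (2 * j + 1) := by
      rw [show 2 * j + 3 = (2 * j + 1) + 2 by ring, g_rec, t_odd]
    have hs := t_sq j
    simp only [zero_add, pow_one, a, b, c, d, M]
    refine ⟨?_, ?_⟩
    · rw [show 2 * j + 2 + 1 = 2 * j + 3 by ring, e2, e1]
      linear_combination (- g (2 * j + 1)) * hs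
    · rw [e1]; ring
  | succ k ih =>
    intro j
    obtain ⟨p1, p2⟩ := ih (2 * j)
    obtain ⟨q1, q2⟩ := ih (2 * j + 1)
    rw [t_even] at p1 p2
    rw [t_odd] at q1 q2
    have i1 : 2 ^ (k + 1) * (2 * j) = 2 ^ (k + 1 + 1) * j := by ring
    have i2 : 2 ^ (k + 1) * (2 * j + 1) = 2 ^ (k + 1 + 1) * j + 2 ^ (k + 1) := by ring
    have i3 : 2 ^ (k + 1 + 1) * j + 2 ^ (k + 1) + 2 ^ (k + 1) =
      2 ^ (k + 1 + 1) * j + 2 ^ (k + 1 + 1) := by ring
    rw [i1] at p1 p2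
    rw [i2, i3, p1, p2] at q1 q2
    have hs := t_sq j
    refine ⟨?_, ?_⟩
    · rw [q1, a_succ, b_succ]
      linear_combination (- b k * c k * g (2 ^ (k + 1 + 1) * j + 1)) * hs
    · rw [q2, c_succ, d_succ]
      linear_combination (- b k * c k * g (2 ^ (k + 1 + 1) * j)) * hs

theorem g_end (k : ℕ) : g (2 ^ (k + 1) + 1) = a k - b k ∧ g (2 ^ (k + 1)) = c k - d k := by
  obtain ⟨h1, h2⟩ := block k 0
  simp only [mul_zero, zero_add, t_zero, one_mul] at h1 h2
  have e0 : g 0 = -1 := rfl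
  have e1 : g 1 = 1 := rfl
  rw [e0, e1] at h1 h2
  exact ⟨by rw [h1]; ring, by rw [h2]; ring⟩

theorem t_pow_sub_one (k : ℕ) : t (2 ^ k - 1) = (-1) ^ k := by
  induction k with
  | zero => simp [t_zero]
  | succ k ih =>
    have hp := Nat.one_le_two_pow (n := k)
    rw [show 2 ^ (k + 1) - 1 = 2 * (2 ^ k - 1) + 1 by rw [pow_succ]; omega, t_odd, ih]
    ring

theorem t_pow_sub_two (k : ℕ) : t (2 ^ (k + 1) - 2) = (-1) ^ k := by
  have hp := Nat.one_le_two_pow (n := k)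
  rw [show 2 ^ (k + 1) - 2 = 2 * (2 ^ k - 1) by rw [pow_succ]; omega, t_even, t_pow_sub_one]

theorem t_pow_sub_three (k : ℕ) : t (2 ^ (k + 2) - 3) = (-1) ^ (k + 1) := by
  have hp := Nat.one_le_two_pow (n := k)
  rw [show 2 ^ (k + 2) - 3 = 2 * (2 ^ (k + 1) - 2) + 1 by
    rw [pow_succ 2 (k + 1), pow_succ 2 k]; omega, t_odd, t_pow_sub_two]
  ring

theorem t_pow_sub_four (k : ℕ) : t (2 ^ (k + 2) - 4) = (-1) ^ k := by
  have hp := Nat.one_le_two_pow (n := k)
  rw [show 2 ^ (k + 2) - 4 = 2 * (2 ^ (k + 1) - 2) by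
    rw [pow_succ 2 (k + 1), pow_succ 2 k]; omega, t_even, t_pow_sub_two]

/-- values of `g` below `2^{k+2}+1` in terms of the last two -/
theorem g_back (k : ℕ) (hk : 1 ≤ k) :
    h (2 ^ (k + 1) - 3) = (a k - b k) - (-1) ^ (k + 1) * (c k - d k) ∧
    h (2 ^ (k + 2) - 6) = (c (k + 1) - d (k + 1)) - (-1) ^ k * (a (k + 1) - b (k + 1)) := by
  obtain ⟨k, rfl⟩ : ∃ l, k = l + 1 := ⟨k - 1, by omega⟩
  have hp := Nat.one_le_two_pow (n := k)
  have hsq : ((-1 : ℤ) ^ k) * (-1) ^ k = 1 := by rw [← mul_pow]; norm_num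
  refine ⟨?_, ?_⟩
  · obtain ⟨g1, g2⟩ := g_end (k + 1)
    rw [(h_eq_g _).1]
    obtain ⟨N, hN⟩ : ∃ N, 2 ^ (k + 1 + 1) = N + 3 := ⟨2 ^ (k + 1 + 1) - 3, by
      rw [pow_succ 2 (k + 1), pow_succ 2 k]; omega⟩
    have t1 := t_pow_sub_one (k + 2)
    rw [show k + 2 = k + 1 + 1 by ring, hN] at t1
    rw [hN] at g1 g2 ⊢
    rw [show N + 3 - 1 = N + 2 by omega] at t1
    rw [show N + 3 - 3 = N by omega]
    have r := g_rec (N + 2)
    rw [show N + 2 + 2 = N + 3 + 1 by ring, show N + 2 + 1 = N + 3 by ring, g1, g2, t1] at r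
    linear_combination (-1) * r
  · obtain ⟨g1, g2⟩ := g_end (k + 1 + 1)
    rw [(h_eq_g _).1]
    obtain ⟨N, hN⟩ : ∃ N, 2 ^ (k + 1 + 2) = N + 6 := ⟨2 ^ (k + 1 + 2) - 6, by
      rw [show k + 1 + 2 = k + 1 + 1 + 1 by ring, pow_succ 2 (k + 1 + 1), pow_succ 2 (k + 1),
        pow_succ 2 k]; omega⟩
    rw [show k + 1 + 1 + 1 = k + 1 + 2 by ring, hN] at g1 g2
    have t1 := t_pow_sub_one (k + 1 + 2)
    have t2 := t_pow_sub_two (k + 2)
    have t3 := t_pow_sub_three (k + 1)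
    have t4 := t_pow_sub_four (k + 1)
    rw [show k + 2 + 1 = k + 1 + 2 by ring] at t2
    rw [hN] at t1 t2 t3 t4
    rw [hN, show N + 6 - 6 = N by omega]
    rw [show N + 6 - 1 = N + 5 by omega] at t1
    rw [show N + 6 - 2 = N + 4 by omega] at t2
    rw [show N + 6 - 3 = N + 3 by omega] at t3
    rw [show N + 6 - 4 = N + 2 by omega] at t4
    have r1 := g_rec (N + 5)
    have r2 := g_rec (N + 4)
    have r3 := g_rec (N + 3)
    have r4 := g_rec (N + 2)
    rw [show N + 5 + 2 = N + 6 + 1 by ring, show N + 5 + 1 = N + 6 by ring, g1, g2, t1] at r1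
    rw [show N + 4 + 2 = N + 6 by ring, show N + 4 + 1 = N + 5 by ring, g2, t2] at r2
    rw [show N + 3 + 2 = N + 5 by ring, show N + 3 + 1 = N + 4 by ring, t3] at r3
    rw [show N + 2 + 2 = N + 4 by ring, show N + 2 + 1 = N + 3 by ring, t4] at r4
    set e : ℤ := (-1) ^ k with he
    have s1 : (-1 : ℤ) ^ (k + 1 + 2) = - e := by rw [he]; ring
    have s2 : (-1 : ℤ) ^ (k + 2) = e := by rw [he]; ring
    have s3 : (-1 : ℤ) ^ (k + 1 + 1) = e := by rw [he]; ring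
    have s4 : (-1 : ℤ) ^ (k + 1) = - e := by rw [he]; ring
    rw [s1] at r1
    rw [s2] at r2
    rw [s3] at r3
    rw [s4] at r4
    rw [s4]
    set x := a (k + 1 + 1) - b (k + 1 + 1)
    set y := c (k + 1 + 1) - d (k + 1 + 1)
    -- g (N+5) = x + e y, g (N+4) = y - e g(N+5), g (N+3) = g (N+5) - e g (N+4),
    -- g (N+2) = g (N+4) + e g (N+3)
    have G5 : g (N + 5) = x + e * y := by linear_combination (-1) * r1
    have G4 : g (N + 4) = - e * x := by
      rw [G5] at r2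
      linear_combination (-1) * r2 - y * hsq
    have G3 : g (N + 3) = 2 * x + e * y := by
      rw [G5, G4] at r3
      linear_combination (-1) * r3 + x * hsq
    rw [G4, G3] at r4
    linear_combination (-1) * r4 + y * hsq

theorem key (k : ℕ) (hk : 1 ≤ k) : h (2 * (2 ^ (k + 1) - 3)) =
    (a k - d k) * h (2 ^ (k + 1) - 3) - (if Even (k + 1) then 0 else 2) +
      (if Even (k + 1) then 0 else - 2 * (a k - d k) * h (2 ^ (k + 1) - 3)) := by
  obtain ⟨g1, g2⟩ := g_back k hk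
  rw [show 2 * (2 ^ (k + 1) - 3) = 2 ^ (k + 2) - 6 by rw [pow_succ 2 (k + 1)]; omega, g2, g1,
    a_succ, b_succ, c_succ, d_succ]
  have hd := det k
  by_cases he : Even (k + 1)
  · have e1 : (-1 : ℤ) ^ (k + 1) = 1 := he.neg_one_pow
    have e2 : (-1 : ℤ) ^ k = -1 := by
      have : (-1 : ℤ) ^ (k + 1) = (-1) ^ k * (-1) := pow_succ _ _
      rw [e1] at this; linarith
    rw [if_pos he, if_pos he, e1, e2]
    linear_combination (0 : ℤ) * hd
  · have ho : Odd (k + 1) := Nat.not_even_iff_odd.mp he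
    have e1 : (-1 : ℤ) ^ (k + 1) = -1 := ho.neg_one_pow
    have e2 : (-1 : ℤ) ^ k = 1 := by
      have : (-1 : ℤ) ^ (k + 1) = (-1) ^ k * (-1) := pow_succ _ _
      rw [e1] at this; linarith
    rw [if_neg he, if_neg he, e1, e2]
    linear_combination (-2 : ℤ) * hd

/-- Positive answers to Q1 and Q2. -/
theorem result :
    (∀ n : ℕ, 1 ≤ n → h (2 ^ (2 * n) - 3) ∣ h (2 * (2 ^ (2 * n) - 3))) ∧
    (∀ k : ℕ, Odd k → 3 ≤ k → h (2 ^ k - 3) ∣ h (2 * (2 ^ k - 3)) - (-2)) := by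
  refine ⟨?_, ?_⟩
  · intro n hn
    obtain ⟨k, hk⟩ : ∃ k, 2 * n = k + 1 := ⟨2 * n - 1, by omega⟩
    have he : Even (k + 1) := ⟨n, by omega⟩
    rw [hk, key k (by omega), if_pos he, if_pos he]
    exact ⟨a k - d k, by ring⟩
  · intro k ho hk
    obtain ⟨l, rfl⟩ : ∃ l, k = l + 1 := ⟨k - 1, by omega⟩
    have he : ¬ Even (l + 1) := Nat.not_even_iff_odd.mpr ho
    rw [key l (by omega), if_neg he, if_neg he]
    exact ⟨- (a l - d l), by ring⟩

end Pool.Agent.Results.MP_36a07b_nt.DoublingBoth
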